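import Pool.Agent.V11163.ZK.Block

/-!
# Relations without large bicliques recognized by tree tensor networks
-/

set_option autoImplicit false

open Finset Classical

namespace Pool.Agent.V11163.ZK

open Pool.Agent.TH700.PA

/-! ### triangular rank of a cut -/

section Cut

variable {V K Al W : Type} [Fintype V]

/-- The triangular rank of `P` for the set `B` of variables is at most `w`. -/
def TriS (P : (V → Al) → Prop) (w : ℕ) (B : Finset V) : Prop :=
  ∀ (k : ℕ) (z : Fin k → V → Al), (∀ i, P (z i)) →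
    (∀ i j, i < j → ¬ P (mix B (z i) (z j))) → k ≤ w

theorem triS_of_cut [Field K] [Fintype W] {f : (V → Al) → K} {A : Finset V}
    (hA : CutV W f A) : TriS (fun z => f z ≠ 0) (Fintype.card W) A := by
  intro n z hd ho
  obtain ⟨g, H, hg, hH, hfs⟩ := hA
  have key : ∀ i j, ∑ k, g (z i) k * H (z j) k = f (mix A (z i) (z j)) := by
    intro i j
    have e1 : g (mix A (z i) (z j)) = g (z i) := hg _ _ fun v hv => by unfold mix; rw [if_pos hv]
    have e2 : H (mix A (z i) (z j)) = H (z j) := hH _ _ fun v hv => by unfold mix; rw [if_neg hv]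
    rw [hfs, e1, e2]
  have hli : LinearIndependent K (fun i : Fin n => g (z i)) := by
    rw [Fintype.linearIndependent_iff]
    intro c hc
    by_contra hcon
    push Not at hcon
    obtain ⟨j', hj'⟩ := hcon
    obtain ⟨j, hj, hmax⟩ := exists_max_image (univ.filter fun i => c i ≠ 0) (fun i => i)
      ⟨j', mem_filter.2 ⟨mem_univ _, hj'⟩⟩
    rw [mem_filter] at hj
    have h1 : ∑ k, (∑ i, c i • g (z i)) k * H (z j) k = 0 := by
      rw [hc]
      simp
    have h2 : ∑ k, (∑ i, c i • g (z i)) k * H (z j) k =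
        ∑ i, c i * f (mix A (z i) (z j)) := by
      simp only [Finset.sum_apply, Pi.smul_apply, smul_eq_mul, Finset.sum_mul]
      rw [sum_comm]
      refine sum_congr rfl fun i _ => ?_
      rw [← key, mul_sum]
      exact sum_congr rfl fun k _ => by ring
    rw [h1] at h2
    rw [sum_eq_single j] at h2
    · rw [mix_self] at h2
      rcases mul_eq_zero.1 h2.symm with h3 | h3
      · exact hj.2 h3
      · exact hd j h3
    · intro i _ hij
      rcases lt_or_gt_of_ne hij with h3 | h3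
      · have := ho i j h3
        simp only [ne_eq, not_not] at this
        rw [this, mul_zero]
      · have : c i = 0 := by
          by_contra h4
          exact absurd (hmax i (mem_filter.2 ⟨mem_univ _, h4⟩)) (not_le.2 h3)
        rw [this, zero_mul]
    · intro h
      exact absurd (mem_univ j) h
  have h3 := hli.fintype_card_le_finrank
  rw [Module.finrank_fintype_fun_eq_card, Fintype.card_fin] at h3
  exact h3

theorem cutV_compl [Field K] [Fintype W] {f : (V → Al) → K} {A : Finset V}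
    (hA : CutV W f A) : CutV W f (cpl A) := by
  obtain ⟨g, H, hg, hH, hfs⟩ := hA
  refine ⟨H, g, fun z z' h => hH z z' fun v hv => h v (mem_cpl.2 hv),
    fun z z' h => hg z z' fun v hv => h v (fun h1 => (mem_cpl.1 h1) hv), fun z => ?_⟩
  rw [hfs]
  exact sum_congr rfl fun k _ => mul_comm _ _

/-- The pairs of children of the nodes. -/
noncomputable def prs : Net K V Al W → Finset (Finset V × Finset V)
  | .leaf _ _ => ∅
  | .node l t _ => insert (rdv l, rdv t) (prs l ∪ prs t)

theorem card_prs (T : Net K V Al W) : (prs T).card ≤ T.size := by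
  induction T with
  | leaf v f => simp [prs]
  | node l t c hl ht =>
    unfold prs Net.size
    refine (card_insert_le _ _).trans ?_
    have := card_union_le (prs l) (prs t)
    omega

theorem rdv_node (l t : Net K V Al W) (c : W → W → W → K) :
    rdv (.node l t c) = uni (rdv l) (rdv t) := by
  ext v
  rw [mem_rdv_node, mem_uni]

theorem mem_prs {T : Net K V Al W} {p : Finset V × Finset V} (hp : p ∈ prs T) :
    p.1 ∈ cutsv T ∧ p.2 ∈ cutsv T ∧ uni p.1 p.2 ∈ cutsv T := by
  induction T with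
  | leaf v f => simp [prs] at hp
  | node l t c hl ht =>
    unfold prs at hp
    rw [mem_insert, mem_union] at hp
    simp only [mem_cutsv_node]
    rcases hp with rfl | hp | hp
    · refine ⟨Or.inr (Or.inl (rdv_mem_cutsv l)), Or.inr (Or.inr (rdv_mem_cutsv t)), Or.inl ?_⟩
      rw [rdv_node]
    · obtain ⟨h1, h2, h3⟩ := hl hp
      exact ⟨Or.inr (Or.inl h1), Or.inr (Or.inl h2), Or.inr (Or.inl h3)⟩
    · obtain ⟨h1, h2, h3⟩ := ht hp
      exact ⟨Or.inr (Or.inr h1), Or.inr (Or.inr h2), Or.inr (Or.inr h3)⟩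

/-- The descent. -/
theorem descent (xs ys : Finset V → Prop) (hleaf : ∀ v, xs {v}) (T : Net K V Al W) :
    (∀ B ∈ cutsv T, (xs B ∨ ys (cpl B)) ∧ (xs (cpl B) ∨ ys B)) → xs (cpl (rdv T)) →
    (∃ B ∈ cutsv T, xs B ∧ xs (cpl B)) ∨ (∃ B ∈ cutsv T, ys B ∧ ys (cpl B)) ∨
      ∃ p ∈ prs T, xs p.1 ∧ xs p.2 ∧ xs (cpl (uni p.1 p.2)) := by
  induction T with
  | leaf v f =>
    intro _ h
    have h1 : rdv (Net.leaf (K := K) (V := V) v f) = {v} := by
      ext u
      rw [mem_rdv_leaf, mem_singleton]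
    refine Or.inl ⟨rdv (.leaf v f), rdv_mem_cutsv _, ?_, h⟩
    rw [h1]
    exact hleaf v
  | node l t c hl ht =>
    intro hg h
    have hcl : cutsv l ⊆ cutsv (.node l t c) := fun A hA => mem_cutsv_node.2 (Or.inr (Or.inl hA))
    have hct : cutsv t ⊆ cutsv (.node l t c) := fun A hA => mem_cutsv_node.2 (Or.inr (Or.inr hA))
    by_cases h1 : xs (rdv l)
    · by_cases h2 : xs (rdv t)
      · refine Or.inr (Or.inr ⟨(rdv l, rdv t), ?_, h1, h2, ?_⟩)
        · unfold prs
          exact mem_insert_self _ _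
        · rw [rdv_node] at h
          exact h
      · have h3 := hg (rdv t) (hct (rdv_mem_cutsv t))
        have h4 : ys (cpl (rdv t)) := h3.1.resolve_left h2
        by_cases h5 : xs (cpl (rdv t))
        · rcases ht (fun B hB => hg B (hct hB)) h5 with h6 | h6 | h6
          · obtain ⟨B, hB, h7⟩ := h6
            exact Or.inl ⟨B, hct hB, h7⟩
          · obtain ⟨B, hB, h7⟩ := h6
            exact Or.inr (Or.inl ⟨B, hct hB, h7⟩)
          · obtain ⟨p, hp, h7⟩ := h6
            refine Or.inr (Or.inr ⟨p, ?_, h7⟩)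
            unfold prs
            exact mem_insert_of_mem (mem_union_right _ hp)
        · exact Or.inr (Or.inl ⟨rdv t, hct (rdv_mem_cutsv t), h3.2.resolve_left h5, h4⟩)
    · have h3 := hg (rdv l) (hcl (rdv_mem_cutsv l))
      have h4 : ys (cpl (rdv l)) := h3.1.resolve_left h1
      by_cases h5 : xs (cpl (rdv l))
      · rcases hl (fun B hB => hg B (hcl hB)) h5 with h6 | h6 | h6
        · obtain ⟨B, hB, h7⟩ := h6
          exact Or.inl ⟨B, hcl hB, h7⟩
        · obtain ⟨B, hB, h7⟩ := h6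
          exact Or.inr (Or.inl ⟨B, hcl hB, h7⟩)
        · obtain ⟨p, hp, h7⟩ := h6
          refine Or.inr (Or.inr ⟨p, ?_, h7⟩)
          unfold prs
          exact mem_insert_of_mem (mem_union_left _ hp)
      · exact Or.inr (Or.inl ⟨rdv l, hcl (rdv_mem_cutsv l), h3.2.resolve_left h5, h4⟩)

theorem size_reads (T : Net K V Al W) : T.size + 1 = 2 * ∑ v, T.reads v := by
  induction T with
  | leaf v f =>
    have h : ∀ u, (Net.leaf (K := K) (V := V) v f).reads u = if v = u then 1 else 0 := by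
      intro u
      show (if v = u then 1 else 0) = _
      congr
    simp only [h]
    simp [Net.size]
  | node l t c hl ht =>
    have h : ∀ u, (Net.node l t c).reads u = l.reads u + t.reads u := fun _ => rfl
    simp only [h, sum_add_distrib]
    unfold Net.size
    omega

end Cut

/-! ### pairs of words -/

section Pairs

variable {ι κ Al K W : Type} [Fintype ι] [Fintype κ]

/-- The places of the first word. -/
noncomputable def lft (B : Finset (ι ⊕ κ)) : Finset ι := univ.filter fun i => Sum.inl i ∈ B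

/-- The places of the second word. -/
noncomputable def rgt (B : Finset (ι ⊕ κ)) : Finset κ := univ.filter fun i => Sum.inr i ∈ B

theorem mem_lft {B : Finset (ι ⊕ κ)} {i : ι} : i ∈ lft B ↔ Sum.inl i ∈ B := by
  unfold lft
  simp

theorem mem_rgt {B : Finset (ι ⊕ κ)} {i : κ} : i ∈ rgt B ↔ Sum.inr i ∈ B := by
  unfold rgt
  simp

theorem mix_elim (B : Finset (ι ⊕ κ)) (x x' : ι → Al) (y y' : κ → Al) :
    mix B (Sum.elim x y) (Sum.elim x' y') = Sum.elim (mix (lft B) x x') (mix (rgt B) y y') := by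
  funext v
  rcases v with i | j
  · by_cases h : Sum.inl i ∈ B
    · simp [mix, mem_lft, h]
    · simp [mix, mem_lft, h]
  · by_cases h : Sum.inr j ∈ B
    · simp [mix, mem_rgt, h]
    · simp [mix, mem_rgt, h]

theorem rgt_compl (B : Finset (ι ⊕ κ)) : rgt (cpl B) = cpl (rgt B) := by
  ext i
  rw [mem_rgt, mem_cpl, mem_cpl, mem_rgt]

theorem tri_block {R : (ι → Al) → (κ → Al) → Prop} {P : (ι ⊕ κ → Al) → Prop}
    (hP : ∀ x y, P (Sum.elim x y) ↔ R x y) {w : ℕ} {B : Finset (ι ⊕ κ)} (hB : TriS P w B)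
    (x0 : ι → Al) (y0 : κ → Al) (u : ι → Al) (v : κ → Al) :
    Tri (fun x y => R x y ∧ mix (lft B) x0 x = u ∧ mix (rgt (cpl B)) y0 y = v) w := by
  intro k x y h1 h2
  refine hB k (fun i => Sum.elim (x i) (y i)) (fun i => (hP _ _).2 (h1 i).1) fun i j hij => ?_
  rw [mix_elim, hP]
  have e1 : mix (lft B) (x i) (x j) = x i := by
    have := (h1 i).2.1.trans (h1 j).2.1.symm
    funext a
    have h3 := congrFun this a
    unfold mix at h3 ⊢
    by_cases ha : a ∈ lft B
    · rw [if_pos ha]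
    · rw [if_neg ha, if_neg ha] at h3
      rw [if_neg ha, h3]
  have e2 : mix (rgt B) (y i) (y j) = y j := by
    have := (h1 i).2.2.trans (h1 j).2.2.symm
    rw [rgt_compl, mix_compl, mix_compl] at this
    funext a
    have h3 := congrFun this a
    unfold mix at h3 ⊢
    by_cases ha : a ∈ rgt B
    · rw [if_pos ha, if_pos ha] at h3
      rw [if_pos ha, h3]
    · rw [if_neg ha]
  rw [e1, e2]
  intro h3
  exact h2 i j hij ⟨h3, (h1 i).2.1, (h1 j).2.2⟩

theorem triN_left {R : (ι → Al) → (κ → Al) → Prop} {P : (ι ⊕ κ → Al) → Prop} [Fintype Al]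
    (hP : ∀ x y, P (Sum.elim x y) ↔ R x y) {w : ℕ} {B : Finset (ι ⊕ κ)} (hB : TriS P w (cpl B))
    (y : κ → Al) : TriN (univ.filter fun x => R x y) (lft B) w := by
  intro k x h1 h2
  refine hB k (fun i => Sum.elim (x i) y) (fun i => (hP _ _).2 (mem_filter.1 (h1 i)).2)
    fun i j hij => ?_
  rw [mix_compl, mix_elim, mix_self, hP]
  intro h3
  exact h2 i j hij (mem_filter.2 ⟨mem_univ _, h3⟩)

theorem triN_right {R : (ι → Al) → (κ → Al) → Prop} {P : (ι ⊕ κ → Al) → Prop} [Fintype Al]
    (hP : ∀ x y, P (Sum.elim x y) ↔ R x y) {w : ℕ} {B : Finset (ι ⊕ κ)} (hB : TriS P w (cpl B))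
    (x : ι → Al) : TriN (univ.filter fun y => R x y) (rgt B) w := by
  intro k y h1 h2
  refine hB k (fun i => Sum.elim x (y i)) (fun i => (hP _ _).2 (mem_filter.1 (h1 i)).2)
    fun i j hij => ?_
  rw [mix_compl, mix_elim, mix_self, hP]
  intro h3
  exact h2 i j hij (mem_filter.2 ⟨mem_univ _, h3⟩)

/-- Few first words related to the second one agree with the first one outside `B`. -/
def XS [Fintype Al] (R : (ι → Al) → (κ → Al) → Prop) (k : ℕ) (x0 : ι → Al)
    (p : (ι → Al) × (κ → Al)) (B : Finset (ι ⊕ κ)) : Prop :=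
  (univ.filter fun x' => R x' p.2 ∧ mix (lft B) x0 x' = mix (lft B) x0 p.1).card ≤ k

/-- Few second words related to the first one agree with the second one outside `B`. -/
def YS [Fintype Al] (R : (ι → Al) → (κ → Al) → Prop) (k : ℕ) (y0 : κ → Al)
    (p : (ι → Al) × (κ → Al)) (B : Finset (ι ⊕ κ)) : Prop :=
  (univ.filter fun y' => R p.1 y' ∧ mix (rgt B) y0 y' = mix (rgt B) y0 p.2).card ≤ k

theorem bad_bound [Fintype Al] {R : (ι → Al) → (κ → Al) → Prop} {P : (ι ⊕ κ → Al) → Prop}
    (hP : ∀ x y, P (Sum.elim x y) ↔ R x y) {w s t : ℕ} (hw : 1 ≤ w) (hf : NoBic R s t)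
    {B : Finset (ι ⊕ κ)} (hB : TriS P w B) (x0 : ι → Al) (y0 : κ → Al) (k : ℕ) :
    k * (univ.filter fun p : (ι → Al) × (κ → Al) => R p.1 p.2 ∧ ¬ (XS R k x0 p B ∨
      YS R k y0 p (cpl B))).card ≤ (2 * w * t + s * w * (2 * w) ^ t) *
      (univ.filter fun p : (ι → Al) × (κ → Al) => R p.1 p.2).card := by
  have h := bad_pairs (R := R) (s := s) (t := t) (mix (lft B) x0) (mix (rgt (cpl B)) y0)
    (fun u v => tri_block hP hB x0 y0 u v) hw hf k
  refine le_trans (Nat.mul_le_mul_left _ (card_le_card ?_)) h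
  intro p hp
  rw [mem_filter] at hp ⊢
  refine ⟨mem_univ _, hp.2.1, ?_, ?_⟩
  · have := hp.2.2
    rw [not_or] at this
    have h3 := this.1
    unfold XS at h3
    have h4 := Nat.lt_of_not_le h3
    convert h4
  · have := hp.2.2
    rw [not_or] at this
    have h3 := this.2
    unfold YS at h3
    have h4 := Nat.lt_of_not_le h3
    convert h4

theorem good_left [Fintype Al] {R : (ι → Al) → (κ → Al) → Prop} {P : (ι ⊕ κ → Al) → Prop}
    (hP : ∀ x y, P (Sum.elim x y) ↔ R x y) {w : ℕ} (C : Fin 3 → Finset (ι ⊕ κ))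
    (hB : ∀ a, TriS P w (cpl (C a))) (hc : ∀ v, ∃ a, v ∈ C a) (x0 : ι → Al) (k : ℕ) :
    (univ.filter fun p : (ι → Al) × (κ → Al) => R p.1 p.2 ∧ ∀ a, XS R k x0 p (C a)).card ≤
      (k * w) ^ 3 * Fintype.card (κ → Al) := by
  rw [card_filter, Fintype.sum_prod_type_right]
  calc _ ≤ ∑ y : κ → Al, (k * w) ^ 3 := sum_le_sum fun y _ => ?_
    _ = _ := by rw [sum_const, smul_eq_mul, card_univ, mul_comm]
  rw [← card_filter]
  have h := few_words (N := univ.filter fun x => R x y) (K := k) (fun a => lft (C a))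
    (fun a => triN_left hP (hB a) y) (fun i => by
      obtain ⟨a, ha⟩ := hc (Sum.inl i)
      exact ⟨a, mem_lft.2 ha⟩) x0
  refine le_trans (card_le_card ?_) h
  intro x hx
  rw [mem_filter] at hx
  rw [mem_filter, mem_filter]
  refine ⟨⟨mem_univ _, hx.2.1⟩, fun a => ?_⟩
  refine le_trans (card_le_card ?_) (hx.2.2 a)
  intro x' hx'
  rw [mem_filter, mem_filter] at hx'
  rw [mem_filter]
  exact ⟨mem_univ _, hx'.1.2, hx'.2⟩

theorem good_right [Fintype Al] {R : (ι → Al) → (κ → Al) → Prop} {P : (ι ⊕ κ → Al) → Prop}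
    (hP : ∀ x y, P (Sum.elim x y) ↔ R x y) {w : ℕ} (C : Fin 3 → Finset (ι ⊕ κ))
    (hB : ∀ a, TriS P w (cpl (C a))) (hc : ∀ v, ∃ a, v ∈ C a) (y0 : κ → Al) (k : ℕ) :
    (univ.filter fun p : (ι → Al) × (κ → Al) => R p.1 p.2 ∧ ∀ a, YS R k y0 p (C a)).card ≤
      (k * w) ^ 3 * Fintype.card (ι → Al) := by
  rw [card_filter, Fintype.sum_prod_type]
  calc _ ≤ ∑ x : ι → Al, (k * w) ^ 3 := sum_le_sum fun x _ => ?_
    _ = _ := by rw [sum_const, smul_eq_mul, card_univ, mul_comm]
  rw [← card_filter]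
  have h := few_words (N := univ.filter fun y => R x y) (K := k) (fun a => rgt (C a))
    (fun a => triN_right hP (hB a) x) (fun i => by
      obtain ⟨a, ha⟩ := hc (Sum.inr i)
      exact ⟨a, mem_rgt.2 ha⟩) y0
  refine le_trans (card_le_card ?_) h
  intro y hy
  rw [mem_filter] at hy
  rw [mem_filter, mem_filter]
  refine ⟨⟨mem_univ _, hy.2.1⟩, fun a => ?_⟩
  refine le_trans (card_le_card ?_) (hy.2.2 a)
  intro y' hy'
  rw [mem_filter, mem_filter] at hy'
  rw [mem_filter]
  exact ⟨mem_univ _, hy'.1.2, hy'.2⟩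

/-- The bound for the number of related pairs. -/
theorem pairs_le [Fintype Al] [Field K] [Fintype W] (T : Net K (ι ⊕ κ) Al W) (a : W → K)
    (h1 : ∀ v, T.reads v = 1) {R : (ι → Al) → (κ → Al) → Prop}
    (hR : ∀ x y, T.value a (Sum.elim x y) ≠ 0 ↔ R x y) {s t : ℕ} (hf : NoBic R s t)
    (hw : 1 ≤ Fintype.card W) (k : ℕ) (hk : Fintype.card Al ≤ k) (hk1 : 1 ≤ k)
    (hkD : 4 * T.size * (2 * Fintype.card W * t + s * Fintype.card W * (2 * Fintype.card W) ^ t) ≤ k) :
    (univ.filter fun p : (ι → Al) × (κ → Al) => R p.1 p.2).card ≤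
      2 * (T.size * ((k * Fintype.card W) ^ 3 *
        (2 * Fintype.card (κ → Al) + Fintype.card (ι → Al)))) := by
  obtain ⟨w, hw'⟩ : ∃ w, w = Fintype.card W := ⟨_, rfl⟩
  rw [← hw'] at hw hkD ⊢
  obtain ⟨E, hE⟩ : ∃ E, E = univ.filter fun p : (ι → Al) × (κ → Al) => R p.1 p.2 := ⟨_, rfl⟩
  rw [← hE]
  rcases E.eq_empty_or_nonempty with hE0 | ⟨q0, hq0⟩
  · rw [hE0, card_empty]
    exact Nat.zero_le _
  obtain ⟨x0, y0⟩ := q0
  obtain ⟨P, hPdef⟩ : ∃ P : (ι ⊕ κ → Al) → Prop, P = fun z => T.value a z ≠ 0 := ⟨_, rfl⟩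
  have hP : ∀ x y, P (Sum.elim x y) ↔ R x y := by
    intro x y
    rw [hPdef]
    exact hR x y
  have hcut : ∀ B ∈ cutsv T, TriS P w B ∧ TriS P w (cpl B) := by
    intro B hB
    have := cutsv_cut T a (fun v => (h1 v).le) B hB
    rw [hPdef, hw']
    exact ⟨triS_of_cut this, triS_of_cut (cutV_compl this)⟩
  have hcut' : ∀ B ∈ cutsv T, TriS P w (cpl (cpl B)) := fun B hB => by
    rw [cpl_cpl]
    exact (hcut B hB).1
  -- the descent
  have hAl : 1 ≤ Fintype.card Al → True := fun _ => trivial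
  have hgood : ∀ p ∈ E, (∀ B ∈ cutsv T, (XS R k x0 p B ∨ YS R k y0 p (cpl B)) ∧
      (XS R k x0 p (cpl B) ∨ YS R k y0 p B)) →
      (∃ B ∈ cutsv T, XS R k x0 p B ∧ XS R k x0 p (cpl B)) ∨
      (∃ B ∈ cutsv T, YS R k y0 p B ∧ YS R k y0 p (cpl B)) ∨
      ∃ q ∈ prs T, XS R k x0 p q.1 ∧ XS R k x0 p q.2 ∧ XS R k x0 p (cpl (uni q.1 q.2)) := by
    intro p hp hg
    refine descent (XS R k x0 p) (YS R k y0 p) ?_ T hg ?_
    · intro v
      unfold XS
      rcases v with i | j
      · refine le_trans ?_ hk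
        rw [← card_univ]
        refine card_le_card_of_injOn (fun x => x i) (fun _ _ => mem_coe.2 (mem_univ _)) ?_
        intro x hx x' hx' he
        rw [mem_coe, mem_filter] at hx hx'
        funext i'
        by_cases hi : i' = i
        · rw [hi]
          exact he
        · have h3 := congrFun (hx.2.2.trans hx'.2.2.symm) i'
          have h4 : i' ∉ lft ({Sum.inl i} : Finset (ι ⊕ κ)) := by
            rw [mem_lft, mem_singleton]
            intro h5
            exact hi (Sum.inl_injective h5)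
          unfold mix at h3
          rwa [if_neg h4, if_neg h4] at h3
      · refine le_trans ?_ hk1
        rw [card_le_one]
        intro x hx x' hx'
        rw [mem_filter] at hx hx'
        funext i'
        have h3 := congrFun (hx.2.2.trans hx'.2.2.symm) i'
        have h4 : i' ∉ lft ({Sum.inr j} : Finset (ι ⊕ κ)) := by
          rw [mem_lft, mem_singleton]
          exact Sum.inl_ne_inr
        unfold mix at h3
        rwa [if_neg h4, if_neg h4] at h3
    · unfold XS
      refine le_trans ?_ hk1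
      rw [card_le_one]
      intro x hx x' hx'
      rw [mem_filter] at hx hx'
      funext i'
      have h3 := congrFun (hx.2.2.trans hx'.2.2.symm) i'
      have h4 : i' ∉ lft (cpl (rdv T)) := by
        rw [mem_lft, mem_cpl, not_not, mem_rdv, h1]
        exact one_pos
      unfold mix at h3
      rwa [if_neg h4, if_neg h4] at h3
  -- the sets
  obtain ⟨b1, hb1⟩ : ∃ b1 : Finset (ι ⊕ κ) → Finset ((ι → Al) × (κ → Al)), b1 = fun B =>
      univ.filter fun p => R p.1 p.2 ∧ ¬ (XS R k x0 p B ∨ YS R k y0 p (cpl B)) := ⟨_, rfl⟩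
  obtain ⟨g1, hg1⟩ : ∃ g1 : Finset (ι ⊕ κ) → Finset ((ι → Al) × (κ → Al)), g1 = fun B =>
      univ.filter fun p => R p.1 p.2 ∧ (XS R k x0 p B ∧ XS R k x0 p (cpl B)) := ⟨_, rfl⟩
  obtain ⟨g2, hg2⟩ : ∃ g2 : Finset (ι ⊕ κ) → Finset ((ι → Al) × (κ → Al)), g2 = fun B =>
      univ.filter fun p => R p.1 p.2 ∧ (YS R k y0 p B ∧ YS R k y0 p (cpl B)) := ⟨_, rfl⟩
  obtain ⟨g3, hg3⟩ : ∃ g3 : Finset (ι ⊕ κ) × Finset (ι ⊕ κ) → Finset ((ι → Al) × (κ → Al)),
      g3 = fun q => univ.filter fun p => R p.1 p.2 ∧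
        (XS R k x0 p q.1 ∧ XS R k x0 p q.2 ∧ XS R k x0 p (cpl (uni q.1 q.2))) := ⟨_, rfl⟩
  have hsub : E ⊆ ((cutsv T).biUnion b1 ∪ (cutsv T).biUnion (fun B => b1 (cpl B))) ∪
      (((cutsv T).biUnion g1 ∪ (cutsv T).biUnion g2) ∪ (prs T).biUnion g3) := by
    intro p hp
    have hpR : R p.1 p.2 := by
      rw [hE, mem_filter] at hp
      exact hp.2
    by_cases hg : ∀ B ∈ cutsv T, (XS R k x0 p B ∨ YS R k y0 p (cpl B)) ∧
      (XS R k x0 p (cpl B) ∨ YS R k y0 p B)
    · refine mem_union_right _ ?_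
      rcases hgood p hp hg with ⟨B, hB, h⟩ | ⟨B, hB, h⟩ | ⟨q, hq, h⟩
      · refine mem_union_left _ (mem_union_left _ (mem_biUnion.2 ⟨B, hB, ?_⟩))
        rw [hg1, mem_filter]
        exact ⟨mem_univ _, hpR, h⟩
      · refine mem_union_left _ (mem_union_right _ (mem_biUnion.2 ⟨B, hB, ?_⟩))
        rw [hg2, mem_filter]
        exact ⟨mem_univ _, hpR, h⟩
      · refine mem_union_right _ (mem_biUnion.2 ⟨q, hq, ?_⟩)
        rw [hg3, mem_filter]
        exact ⟨mem_univ _, hpR, h⟩
    · refine mem_union_left _ ?_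
      push Not at hg
      obtain ⟨B, hB, hg⟩ := hg
      by_cases h : XS R k x0 p B ∨ YS R k y0 p (cpl B)
      · refine mem_union_right _ (mem_biUnion.2 ⟨B, hB, ?_⟩)
        rw [hb1, mem_filter]
        refine ⟨mem_univ _, hpR, ?_⟩
        rw [cpl_cpl, not_or]
        exact hg h
      · refine mem_union_left _ (mem_biUnion.2 ⟨B, hB, ?_⟩)
        rw [hb1, mem_filter]
        exact ⟨mem_univ _, hpR, h⟩
  obtain ⟨D, hD⟩ : ∃ D, D = 2 * w * t + s * w * (2 * w) ^ t := ⟨_, rfl⟩
  rw [← hD] at hkD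
  have hN : (cutsv T).card ≤ T.size := card_cutsv T
  have hN' : (prs T).card ≤ T.size := card_prs T
  have c1 : k * ((cutsv T).biUnion b1).card ≤ T.size * (D * E.card) := by
    calc k * ((cutsv T).biUnion b1).card ≤ k * ∑ B ∈ cutsv T, (b1 B).card :=
          Nat.mul_le_mul_left _ card_biUnion_le
      _ = ∑ B ∈ cutsv T, k * (b1 B).card := by rw [mul_sum]
      _ ≤ ∑ B ∈ cutsv T, D * E.card := sum_le_sum fun B hB => by
          rw [hb1, hD, hE]
          exact bad_bound hP hw hf (hcut B hB).1 x0 y0 k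
      _ = (cutsv T).card * (D * E.card) := by rw [sum_const, smul_eq_mul]
      _ ≤ _ := Nat.mul_le_mul_right _ hN
  have c2 : k * ((cutsv T).biUnion (fun B => b1 (cpl B))).card ≤ T.size * (D * E.card) := by
    calc k * ((cutsv T).biUnion (fun B => b1 (cpl B))).card ≤
          k * ∑ B ∈ cutsv T, (b1 (cpl B)).card :=
          Nat.mul_le_mul_left _ card_biUnion_le
      _ = ∑ B ∈ cutsv T, k * (b1 (cpl B)).card := by rw [mul_sum]
      _ ≤ ∑ B ∈ cutsv T, D * E.card := sum_le_sum fun B hB => by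
          rw [hb1, hD, hE]
          exact bad_bound hP hw hf (hcut B hB).2 x0 y0 k
      _ = (cutsv T).card * (D * E.card) := by rw [sum_const, smul_eq_mul]
      _ ≤ _ := Nat.mul_le_mul_right _ hN
  have c3 : ((cutsv T).biUnion g1).card ≤ T.size * ((k * w) ^ 3 * Fintype.card (κ → Al)) := by
    calc ((cutsv T).biUnion g1).card ≤ ∑ B ∈ cutsv T, (g1 B).card := card_biUnion_le
      _ ≤ ∑ B ∈ cutsv T, (k * w) ^ 3 * Fintype.card (κ → Al) := sum_le_sum fun B hB => by
          rw [hg1]
          refine le_trans (card_le_card ?_) (good_left hP ![B, cpl B, cpl B] ?_ ?_ x0 k)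
          · intro p hp
            rw [mem_filter] at hp ⊢
            refine ⟨mem_univ _, hp.2.1, fun a => ?_⟩
            fin_cases a
            · exact hp.2.2.1
            · exact hp.2.2.2
            · exact hp.2.2.2
          · intro a
            fin_cases a
            · exact (hcut B hB).2
            · exact hcut' B hB
            · exact hcut' B hB
          · intro v
            by_cases hv : v ∈ B
            · exact ⟨0, hv⟩
            · exact ⟨1, mem_cpl.2 hv⟩
      _ = (cutsv T).card * ((k * w) ^ 3 * Fintype.card (κ → Al)) := by rw [sum_const, smul_eq_mul]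
      _ ≤ _ := Nat.mul_le_mul_right _ hN
  have c4 : ((cutsv T).biUnion g2).card ≤ T.size * ((k * w) ^ 3 * Fintype.card (ι → Al)) := by
    calc ((cutsv T).biUnion g2).card ≤ ∑ B ∈ cutsv T, (g2 B).card := card_biUnion_le
      _ ≤ ∑ B ∈ cutsv T, (k * w) ^ 3 * Fintype.card (ι → Al) := sum_le_sum fun B hB => by
          rw [hg2]
          refine le_trans (card_le_card ?_) (good_right hP ![B, cpl B, cpl B] ?_ ?_ y0 k)
          · intro p hp
            rw [mem_filter] at hp ⊢
            refine ⟨mem_univ _, hp.2.1, fun a => ?_⟩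
            fin_cases a
            · exact hp.2.2.1
            · exact hp.2.2.2
            · exact hp.2.2.2
          · intro a
            fin_cases a
            · exact (hcut B hB).2
            · exact hcut' B hB
            · exact hcut' B hB
          · intro v
            by_cases hv : v ∈ B
            · exact ⟨0, hv⟩
            · exact ⟨1, mem_cpl.2 hv⟩
      _ = (cutsv T).card * ((k * w) ^ 3 * Fintype.card (ι → Al)) := by rw [sum_const, smul_eq_mul]
      _ ≤ _ := Nat.mul_le_mul_right _ hN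
  have c5 : ((prs T).biUnion g3).card ≤ T.size * ((k * w) ^ 3 * Fintype.card (κ → Al)) := by
    calc ((prs T).biUnion g3).card ≤ ∑ B ∈ prs T, (g3 B).card := card_biUnion_le
      _ ≤ ∑ B ∈ prs T, (k * w) ^ 3 * Fintype.card (κ → Al) := sum_le_sum fun B hB => by
          obtain ⟨m1, m2, m3⟩ := mem_prs hB
          rw [hg3]
          refine le_trans (card_le_card ?_)
            (good_left hP ![B.1, B.2, cpl (uni B.1 B.2)] ?_ ?_ x0 k)
          · intro p hp
            rw [mem_filter] at hp ⊢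
            refine ⟨mem_univ _, hp.2.1, fun a => ?_⟩
            fin_cases a
            · exact hp.2.2.1
            · exact hp.2.2.2.1
            · exact hp.2.2.2.2
          · intro a
            fin_cases a
            · exact (hcut _ m1).2
            · exact (hcut _ m2).2
            · exact hcut' _ m3
          · intro v
            by_cases hv : v ∈ B.1
            · exact ⟨0, hv⟩
            · by_cases hv' : v ∈ B.2
              · exact ⟨1, hv'⟩
              · exact ⟨2, mem_cpl.2 (by rw [mem_uni]; tauto)⟩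
      _ = (prs T).card * ((k * w) ^ 3 * Fintype.card (κ → Al)) := by rw [sum_const, smul_eq_mul]
      _ ≤ _ := Nat.mul_le_mul_right _ hN'
  have c6 := card_le_card hsub
  have c7 := c6.trans (card_union_le _ _)
  have c8 := card_union_le ((cutsv T).biUnion b1) ((cutsv T).biUnion (fun B => b1 (cpl B)))
  have c9 := card_union_le ((cutsv T).biUnion g1 ∪ (cutsv T).biUnion g2) ((prs T).biUnion g3)
  have c10 := card_union_le ((cutsv T).biUnion g1) ((cutsv T).biUnion g2)
  obtain ⟨u1, hu1⟩ : ∃ u, u = ((cutsv T).biUnion b1).card := ⟨_, rfl⟩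
  obtain ⟨u2, hu2⟩ : ∃ u, u = ((cutsv T).biUnion (fun B => b1 (cpl B))).card := ⟨_, rfl⟩
  obtain ⟨u3, hu3⟩ : ∃ u, u = ((cutsv T).biUnion g1).card := ⟨_, rfl⟩
  obtain ⟨u4, hu4⟩ : ∃ u, u = ((cutsv T).biUnion g2).card := ⟨_, rfl⟩
  obtain ⟨u5, hu5⟩ : ∃ u, u = ((prs T).biUnion g3).card := ⟨_, rfl⟩
  rw [← hu1] at c1 c8
  rw [← hu2] at c2 c8
  rw [← hu3] at c3 c10
  rw [← hu4] at c4 c10
  rw [← hu5] at c5 c9
  have e1 : E.card ≤ (u1 + u2) + (u3 + u4 + u5) := by omega
  have e2 : 2 * (u1 + u2) ≤ E.card := by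
    refine Nat.le_of_mul_le_mul_left ?_ (show 0 < k by omega)
    calc k * (2 * (u1 + u2)) = 2 * (k * u1 + k * u2) := by ring
      _ ≤ 2 * (T.size * (D * E.card) + T.size * (D * E.card)) := by omega
      _ = (4 * T.size * D) * E.card := by ring
      _ ≤ k * E.card := Nat.mul_le_mul_right _ hkD
  calc E.card ≤ 2 * (u3 + u4 + u5) := by omega
    _ ≤ 2 * (T.size * ((k * w) ^ 3 * Fintype.card (κ → Al)) +
        T.size * ((k * w) ^ 3 * Fintype.card (ι → Al)) +
        T.size * ((k * w) ^ 3 * Fintype.card (κ → Al))) := by omega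
    _ = _ := by ring

theorem pairs_card_le [Fintype Al] [Field K] [Fintype W] (T : Net K (ι ⊕ κ) Al W) (a : W → K)
    (h1 : ∀ v, T.reads v = 1) {R : (ι → Al) → (κ → Al) → Prop}
    (hR : ∀ x y, T.value a (Sum.elim x y) ≠ 0 ↔ R x y) {s t : ℕ} (hf : NoBic R s t)
    (hw : 1 ≤ Fintype.card W) (k : ℕ) (hk : Fintype.card Al ≤ k) (hk1 : 1 ≤ k)
    (hkD : 4 * T.size * (2 * Fintype.card W * t + s * Fintype.card W * (2 * Fintype.card W) ^ t) ≤ k) :
    Nat.card {p : (ι → Al) × (κ → Al) // R p.1 p.2} ≤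
      2 * (T.size * ((k * Fintype.card W) ^ 3 *
        (2 * Nat.card (κ → Al) + Nat.card (ι → Al)))) := by
  have h := pairs_le T a h1 hR hf hw k hk hk1 hkD
  rw [← Fintype.card_subtype, ← Nat.card_eq_fintype_card, ← Nat.card_eq_fintype_card (α := κ → Al),
    ← Nat.card_eq_fintype_card (α := ι → Al)] at h
  exact h

end Pairs

/-- The edges of a graph are at most the related pairs. -/
theorem edges_le_pairs {V : Type} [Finite V] {G : SimpleGraph V} {R : V → V → Prop}
    (hR : ∀ x y, x ≠ y → (R x y ↔ G.Adj x y)) :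
    Nat.card G.edgeSet ≤ Nat.card {p : V × V // R p.1 p.2} := by
  have h1 : ∀ e : G.edgeSet, ∃ p : {p : V × V // R p.1 p.2}, s(p.1.1, p.1.2) = e.1 := by
    rintro ⟨e, he⟩
    induction e using Sym2.ind with
    | _ x y =>
      rw [SimpleGraph.mem_edgeSet] at he
      exact ⟨⟨(x, y), (hR _ _ he.ne).2 he⟩, rfl⟩
  choose f hf using h1
  refine Nat.card_le_card_of_injective f ?_
  intro e e' h
  apply Subtype.ext
  rw [← hf e, ← hf e', h]

end Pool.Agent.V11163.ZK
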