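import Pool.Agent.V11163.ZK.Main
import Pool.Agent.TH700.PA.Count
import Mathlib.Combinatorics.SimpleGraph.Copy
import Mathlib.Combinatorics.SimpleGraph.Finite

/-!
# Graphs without a bipartite subgraph recognized by tree tensor networks
-/

set_option autoImplicit false

open Finset Classical

namespace Pool.Agent.V11163.ZK

open Pool.Agent.TH700.PA

/-- The graph `G`, whose vertices are the words of length `m` over the alphabet `Fin q`, is recognized by
a tree tensor network over the field `K` whose indices have values in `W` (the bond dimension is the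
number of elements of `W`): every leaf reads one letter of one of the two words, the network reads
every letter of the two words at most once (in any tree-like order), and for any two different words
`x`, `y` its value is not zero if and only if `x` and `y` are adjacent. -/
def Rec (K W : Type) [Field K] [Fintype W] {m q : ℕ} (G : SimpleGraph (Fin m → Fin q)) : Prop :=
  ∃ (T : Net K (Fin m ⊕ Fin m) (Fin q) W) (a : W → K), (∀ v, T.reads v ≤ 1) ∧
    ∀ x y, x ≠ y → (T.value a (Sum.elim x y) ≠ 0 ↔ G.Adj x y)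

/-- The constant of the bound. -/
def CC (s t q : ℕ) : ℕ := 24 * (16 * (2 * (s + t) + s * 2 ^ (s + t)) + q + 1) ^ 3

theorem nobic_of_free {V : Type} {G : SimpleGraph V} {R : V → V → Prop}
    (hR : ∀ x y, x ≠ y → (R x y ↔ G.Adj x y)) {s t : ℕ}
    (hf : (completeBipartiteGraph (Fin s) (Fin t)).Free G) : NoBic R s (s + t) := by
  rintro ⟨S, T, hS, hT, h⟩
  have h1 : t ≤ (T \ S).card := by
    have := le_card_sdiff S T
    omega
  obtain ⟨T', hT', hTc⟩ := exists_subset_card_eq h1
  apply hf
  obtain ⟨e1⟩ : Nonempty (Fin s ≃ S) := ⟨(Fintype.equivFinOfCardEq (by simp [hS])).symm⟩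
  obtain ⟨e2⟩ : Nonempty (Fin t ≃ T') := ⟨(Fintype.equivFinOfCardEq (by simp [hTc])).symm⟩
  have hne : ∀ i j, (e1 i : V) ≠ (e2 j : V) := by
    intro i j he
    have h2 := hT' (e2 j).2
    rw [mem_sdiff] at h2
    rw [← he] at h2
    exact h2.2 (e1 i).2
  have hadj : ∀ i j, G.Adj (e1 i) (e2 j) := by
    intro i j
    exact (hR _ _ (hne i j)).1 (h _ (e1 i).2 _ ((mem_sdiff.1 (hT' (e2 j).2)).1))
  refine ⟨⟨⟨Sum.elim (fun i => (e1 i : V)) (fun j => (e2 j : V)), ?_⟩, ?_⟩⟩
  · intro a b hab
    rcases a with i | i <;> rcases b with j | j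
    · simp at hab
    · exact hadj i j
    · exact (hadj j i).symm
    · simp at hab
  · intro a b hab
    rcases a with i | i <;> rcases b with j | j
    · have : (e1 i : V) = e1 j := hab
      rw [e1.injective (Subtype.ext this)]
    · exact absurd hab (hne i j)
    · exact absurd hab.symm (hne j i)
    · have : (e2 i : V) = e2 j := hab
      rw [e2.injective (Subtype.ext this)]

/-- The bound for graphs without `K_{s,t}`. -/
theorem kst_le (s t m q : ℕ) (K W : Type) [Field K] [Fintype W]
    (G : SimpleGraph (Fin m → Fin q)) (hG : Rec K W G)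
    (hf : (completeBipartiteGraph (Fin s) (Fin t)).Free G) :
    Nat.card G.edgeSet ≤ CC s t q * m ^ 4 * Fintype.card W ^ (3 * (s + t + 2)) * q ^ m := by
  obtain ⟨T, a, h1, h2⟩ := hG
  rcases isEmpty_or_nonempty W with hW | hW
  · have h3 : Nat.card G.edgeSet = 0 := by
      rw [Nat.card_eq_zero]
      left
      constructor
      rintro ⟨e, he⟩
      induction e using Sym2.ind with
      | _ x y =>
        rw [SimpleGraph.mem_edgeSet] at he
        have := (h2 x y he.ne).2 he
        apply this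
        unfold Net.value
        exact Finset.sum_eq_zero (fun k _ => (hW.false k).elim)
    rw [h3]
    exact Nat.zero_le _
  have hw : 1 ≤ Fintype.card W := Fintype.card_pos
  obtain ⟨T', g1, g2, -⟩ := exists_ext T h1
  have hval : ∀ z, T'.value a z = T.value a z := by
    intro z
    unfold Net.value
    rw [g2]
  obtain ⟨R, hRd⟩ : ∃ R : (Fin m → Fin q) → (Fin m → Fin q) → Prop,
      R = fun x y => T'.value a (Sum.elim x y) ≠ 0 := ⟨_, rfl⟩
  have hR : ∀ x y, x ≠ y → (R x y ↔ G.Adj x y) := by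
    intro x y hxy
    rw [hRd]
    simp only
    rw [hval]
    exact h2 x y hxy
  have hR' : ∀ x y, T'.value a (Sum.elim x y) ≠ 0 ↔ R x y := by
    intro x y
    rw [hRd]
  obtain ⟨w, hw'⟩ : ∃ w, w = Fintype.card W := ⟨_, rfl⟩
  have hsz : T'.size + 1 = 4 * m := by
    rw [size_reads, sum_congr rfl (fun v _ => g1 v), sum_const, card_univ, Fintype.card_sum,
      Fintype.card_fin, smul_eq_mul]
    ring
  have hm : 1 ≤ m := by omega
  obtain ⟨D, hD⟩ : ∃ D, D = 2 * w * (s + t) + s * w * (2 * w) ^ (s + t) := ⟨_, rfl⟩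
  have h3 := pairs_card_le T' a g1 hR' (nobic_of_free hR hf) hw (16 * m * D + q + 1) (by
    rw [Fintype.card_fin]
    omega) (by omega) (by
    rw [← hw', ← hD]
    have : 4 * T'.size * D ≤ 4 * (4 * m) * D := Nat.mul_le_mul_right _ (by omega)
    calc 4 * T'.size * D ≤ 4 * (4 * m) * D := this
      _ = 16 * m * D := by ring
      _ ≤ _ := by omega)
  rw [← hw'] at h3
  have h4 : Nat.card (Fin m → Fin q) = q ^ m := by
    rw [Nat.card_fun, Nat.card_fin, Nat.card_fin]
  rw [h4] at h3
  have hww : 1 ≤ w := by omega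
  have hDb : D ≤ (2 * (s + t) + s * 2 ^ (s + t)) * w ^ (s + t + 1) := by
    rw [hD, add_mul]
    refine Nat.add_le_add ?_ ?_
    · calc 2 * w * (s + t) = 2 * (s + t) * w ^ 1 := by ring
        _ ≤ 2 * (s + t) * w ^ (s + t + 1) :=
          Nat.mul_le_mul_left _ (Nat.pow_le_pow_right hww (by omega))
    · rw [mul_pow]
      apply le_of_eq
      ring
  obtain ⟨c, hc⟩ : ∃ c, c = 2 * (s + t) + s * 2 ^ (s + t) := ⟨_, rfl⟩
  rw [← hc] at hDb
  have hkb : 16 * m * D + q + 1 ≤ (16 * c + q + 1) * (m * w ^ (s + t + 1)) := by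
    have e1 : 1 ≤ m * w ^ (s + t + 1) := Nat.mul_pos hm (Nat.pow_pos hww)
    calc 16 * m * D + q + 1 ≤ 16 * m * (c * w ^ (s + t + 1)) + (q + 1) * 1 := by
          have := Nat.mul_le_mul_left (16 * m) hDb
          omega
      _ ≤ 16 * m * (c * w ^ (s + t + 1)) + (q + 1) * (m * w ^ (s + t + 1)) :=
          Nat.add_le_add_left (Nat.mul_le_mul_left _ e1) _
      _ = _ := by ring
  calc Nat.card G.edgeSet ≤ _ := edges_le_pairs hR
    _ ≤ 2 * (T'.size * (((16 * m * D + q + 1) * w) ^ 3 * (2 * q ^ m + q ^ m))) := h3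
    _ ≤ 2 * ((4 * m) * ((((16 * c + q + 1) * (m * w ^ (s + t + 1))) * w) ^ 3 *
        (2 * q ^ m + q ^ m))) := by
        refine Nat.mul_le_mul_left _ (Nat.mul_le_mul (by omega) (Nat.mul_le_mul_right _ ?_))
        exact Nat.pow_le_pow_left (Nat.mul_le_mul_right _ hkb) 3
    _ = _ := by
        unfold CC
        rw [← hc, ← hw']
        ring

/-- Powers of `n` against powers of `log n`. -/
theorem pow_beats (C : ℝ) {q : ℕ} (hq : 2 ≤ q) {δ c : ℝ} (hδ : 0 < δ) (hc : 0 < c) :
    ∃ m₀ : ℕ, ∀ m : ℕ, m₀ ≤ m → C * (m : ℝ) ^ 4 < c * ((q : ℝ) ^ m) ^ δ := by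
  have hr : 1 < (q : ℝ) ^ δ := Real.one_lt_rpow (by exact_mod_cast (by omega : 1 < q)) hδ
  have h1 := tendsto_pow_const_div_const_pow_of_one_lt 4 hr
  have h2 : Filter.Tendsto (fun n : ℕ => C * ((n : ℝ) ^ 4 / ((q : ℝ) ^ δ) ^ n)) Filter.atTop
      (nhds (C * 0)) := h1.const_mul C
  rw [mul_zero] at h2
  obtain ⟨m₀, h3⟩ := Filter.eventually_atTop.1 (h2.eventually (gt_mem_nhds hc))
  refine ⟨m₀, fun m hm => ?_⟩
  have h4 := h3 m hm
  have h5 : ((q : ℝ) ^ m) ^ δ = ((q : ℝ) ^ δ) ^ m := by
    rw [← Real.rpow_natCast, ← Real.rpow_natCast, ← Real.rpow_mul (by positivity),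
      ← Real.rpow_mul (by positivity), mul_comm]
  have h6 : 0 < ((q : ℝ) ^ δ) ^ m := by positivity
  rw [h5]
  rw [← mul_div_assoc, div_lt_iff₀ h6] at h4
  exact h4

/-- Graphs with `c n ^ (1 + ε)` edges need bond dimension `n ^ γ`. -/
theorem asy_of_le (C e : ℕ) {q : ℕ} (hq : 2 ≤ q) {ε γ c : ℝ} (hc : 0 < c)
    (hε : e * γ < ε) : ∃ m₀ : ℕ, ∀ m w E : ℕ, m₀ ≤ m →
      E ≤ C * m ^ 4 * w ^ e * q ^ m → c * ((q : ℝ) ^ m) ^ (1 + ε) ≤ E →
      ((q : ℝ) ^ m) ^ γ < w := by
  obtain ⟨m₀, h0⟩ := pow_beats (C : ℝ) hq (sub_pos.2 hε) hc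
  refine ⟨m₀, fun m w E hm h1 h2 => ?_⟩
  by_contra h3
  push Not at h3
  have hn : (0 : ℝ) < (q : ℝ) ^ m := by positivity
  have h4 : (w : ℝ) ^ e ≤ ((q : ℝ) ^ m) ^ (e * γ) := by
    calc (w : ℝ) ^ e ≤ (((q : ℝ) ^ m) ^ γ) ^ e := pow_le_pow_left₀ (by positivity) h3 e
      _ = ((q : ℝ) ^ m) ^ (e * γ) := by
          rw [← Real.rpow_natCast (((q : ℝ) ^ m) ^ γ), ← Real.rpow_mul hn.le, mul_comm]
  have h5 : (E : ℝ) ≤ C * (m : ℝ) ^ 4 * (w : ℝ) ^ e * (q : ℝ) ^ m := by exact_mod_cast h1
  have h6 : c * ((q : ℝ) ^ m) ^ (1 + ε) ≤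
      C * (m : ℝ) ^ 4 * ((q : ℝ) ^ m) ^ (e * γ) * (q : ℝ) ^ m := by
    refine h2.trans (h5.trans ?_)
    refine mul_le_mul_of_nonneg_right ?_ hn.le
    exact mul_le_mul_of_nonneg_left h4 (by positivity)
  have h7 : ((q : ℝ) ^ m) ^ (1 + ε) =
      ((q : ℝ) ^ m) ^ (ε - e * γ) * (((q : ℝ) ^ m) ^ (e * γ) * (q : ℝ) ^ m) := by
    rw [← Real.rpow_add_one hn.ne', ← Real.rpow_add hn]
    congr 1
    ring
  have h8 := h0 m hm
  have h9 : 0 < ((q : ℝ) ^ m) ^ (e * γ) * (q : ℝ) ^ m := by positivity
  have h10 := mul_lt_mul_of_pos_right h8 h9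
  rw [h7] at h6
  nlinarith

/-! ### the universal network -/

section Universal

variable {V V' K Al W : Type}

/-- Rename the variables. -/
def mapV (e : V → V') : Net K V Al W → Net K V' Al W
  | .leaf v f => .leaf (e v) f
  | .node l r c => .node (mapV e l) (mapV e r) c

theorem mapV_eval [Semiring K] [Fintype W] (e : V → V') (T : Net K V Al W) (z : V' → Al) :
    (mapV e T).eval z = T.eval (fun v => z (e v)) := by
  induction T with
  | leaf v f => rfl
  | node l r c hl hr =>
    unfold mapV Net.eval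
    rw [hl, hr]

theorem mapV_reads {e : V → V'} (he : Function.Injective e) (T : Net K V Al W) (v : V) :
    (mapV e T).reads (e v) = T.reads v := by
  induction T with
  | leaf u f =>
    show (if e u = e v then 1 else 0) = if u = v then 1 else 0
    by_cases h : u = v
    · rw [if_pos h, if_pos (congrArg e h)]
    · rw [if_neg h, if_neg (fun h1 => h (he h1))]
  | node l r c hl hr =>
    show (mapV e l).reads (e v) + (mapV e r).reads (e v) = _
    rw [hl, hr]
    rfl

theorem mapV_reads_zero {e : V → V'} {v' : V'} (he : ∀ v, e v ≠ v') (T : Net K V Al W) :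
    (mapV e T).reads v' = 0 := by
  induction T with
  | leaf u f =>
    show (if e u = v' then 1 else 0) = 0
    rw [if_neg (he u)]
  | node l r c hl hr =>
    show (mapV e l).reads v' + (mapV e r).reads v' = _
    rw [hl, hr]

/-- Every graph on `n` words is recognized with bond dimension `n`. -/
theorem universal (K : Type) [Field K] {m q : ℕ} (hm : 1 ≤ m) (hq : 1 ≤ q)
    (G : SimpleGraph (Fin m → Fin q)) : Rec K (Fin m → Fin q) G := by
  have : Nonempty (Fin m) := ⟨⟨0, hm⟩⟩
  obtain ⟨T, -, h2, -, h4⟩ := exists_product (K := K)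
    (fun (v : Fin m) (c : Fin q) (w : Fin m → Fin q) => if w v = c then (1 : K) else 0)
  have h5 : ∀ x w, T.eval x w = if w = x then 1 else 0 := by
    intro x w
    rw [h4]
    by_cases h : w = x
    · rw [if_pos h, h]
      exact prod_eq_one fun v _ => if_pos rfl
    · rw [if_neg h]
      obtain ⟨v, hv⟩ := Function.ne_iff.1 h
      exact prod_eq_zero (mem_univ v) (if_neg hv)
  obtain ⟨k0⟩ : Nonempty (Fin m → Fin q) := ⟨fun _ => ⟨0, hq⟩⟩
  refine ⟨.node (mapV Sum.inl T) (mapV Sum.inr T) (fun i j _ => if G.Adj i j then 1 else 0),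
    fun k => if k = k0 then 1 else 0, ?_, ?_⟩
  · intro v
    show (mapV Sum.inl T).reads v + (mapV Sum.inr T).reads v ≤ 1
    rcases v with i | j
    · rw [mapV_reads Sum.inl_injective, mapV_reads_zero (fun v => Sum.inr_ne_inl), h2]
    · rw [mapV_reads Sum.inr_injective, mapV_reads_zero (fun v => Sum.inl_ne_inr), h2]
  · intro x y _
    have h6 : (Net.node (mapV Sum.inl T) (mapV Sum.inr T)
        (fun i j _ => if G.Adj i j then (1 : K) else 0)).value
        (fun k => if k = k0 then (1 : K) else 0) (Sum.elim x y) =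
        if G.Adj x y then (1 : K) else 0 := by
      unfold Net.value
      have h7 : ∀ k, (Net.node (mapV Sum.inl T) (mapV Sum.inr T)
          (fun i j _ => if G.Adj i j then (1 : K) else 0)).eval (Sum.elim x y) k =
          if G.Adj x y then (1 : K) else 0 := by
        intro k
        show ∑ i, ∑ j, (if G.Adj i j then (1 : K) else 0) *
          ((mapV Sum.inl T).eval (Sum.elim x y) i * (mapV Sum.inr T).eval (Sum.elim x y) j) = _
        rw [mapV_eval, mapV_eval]
        have e1 : (fun v => Sum.elim x y (Sum.inl v)) = x := rfl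
        have e2 : (fun v => Sum.elim x y (Sum.inr v)) = y := rfl
        rw [e1, e2]
        simp only [h5]
        rw [sum_eq_single x, sum_eq_single y]
        · simp
        · intro j _ hj
          rw [if_neg hj]
          simp
        · intro h
          exact absurd (mem_univ _) h
        · intro i _ hi
          refine sum_eq_zero fun j _ => ?_
          rw [if_neg hi]
          simp
        · intro h
          exact absurd (mem_univ _) h
      simp only [h7]
      simp
    rw [h6]
    split_ifs with h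
    · simp [h]
    · simp [h]

end Universal

/-- Graphs without a bipartite graph with `k` vertices contain no `K_{k,k}`. -/
theorem free_of_bip {V : Type} {G : SimpleGraph V} {k : ℕ} {H : SimpleGraph (Fin k)}
    (hH : H.Colorable 2) (hf : H.Free G) : (completeBipartiteGraph (Fin k) (Fin k)).Free G := by
  intro h
  apply hf
  refine SimpleGraph.IsContained.trans ?_ h
  obtain ⟨col⟩ := hH
  refine ⟨⟨⟨fun v => if col v = 0 then Sum.inl v else Sum.inr v, ?_⟩, ?_⟩⟩
  · intro a b hab
    have h1 := col.valid hab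
    by_cases ha : col a = 0
    · by_cases hb : col b = 0
      · exact absurd (ha.trans hb.symm) h1
      · simp [ha, hb]
    · by_cases hb : col b = 0
      · simp [ha, hb]
      · exfalso
        apply h1
        have e1 := (col a).isLt
        have e2 := (col b).isLt
        have e3 : (col a : ℕ) ≠ 0 := fun h => ha (Fin.ext h)
        have e4 : (col b : ℕ) ≠ 0 := fun h => hb (Fin.ext h)
        exact Fin.ext (by omega)
  · intro a b hab
    simp only [RelHom.coeFn_mk] at hab
    split_ifs at hab with ha hb hb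
    · exact Sum.inl_injective hab
    · exact Sum.inr_injective hab

end Pool.Agent.V11163.ZK
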