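import Pool.Agent.V11163.ZK.Comb
import Pool.Agent.TH700.PA.Cut

/-!
# Blocks and words
-/

set_option autoImplicit false

open Finset Classical

namespace Pool.Agent.V11163.ZK

open Pool.Agent.TH700.PA

/-- Few pairs have large degree in both directions in their block. -/
theorem bad_pairs {α β P Q : Type} [Fintype α] [Fintype β] {R : α → β → Prop} {w s t : ℕ}
    (pa : α → P) (pb : β → Q) (hT : ∀ u v, Tri (fun x y => R x y ∧ pa x = u ∧ pb y = v) w)
    (hw : 1 ≤ w) (hf : NoBic R s t) (K : ℕ) :
    K * (univ.filter (fun p : α × β => R p.1 p.2 ∧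
      K < (univ.filter fun x' => R x' p.2 ∧ pa x' = pa p.1).card ∧
      K < (univ.filter fun y' => R p.1 y' ∧ pb y' = pb p.2).card)).card ≤
    (2 * w * t + s * w * (2 * w) ^ t) * (univ.filter (fun p : α × β => R p.1 p.2)).card := by
  obtain ⟨E, hE⟩ : ∃ E, E = univ.filter (fun p : α × β => R p.1 p.2) := ⟨_, rfl⟩
  obtain ⟨F, hF⟩ : ∃ F, F = univ.filter (fun p : α × β => R p.1 p.2 ∧
      K < (univ.filter fun x' => R x' p.2 ∧ pa x' = pa p.1).card ∧
      K < (univ.filter fun y' => R p.1 y' ∧ pb y' = pb p.2).card) := ⟨_, rfl⟩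
  rw [← hE, ← hF]
  obtain ⟨lab, hlab⟩ : ∃ lab : α × β → P × Q, lab = fun p => (pa p.1, pb p.2) := ⟨_, rfl⟩
  have hFE : F ⊆ E := by
    intro p hp
    rw [hF, mem_filter] at hp
    rw [hE, mem_filter]
    exact ⟨hp.1, hp.2.1⟩
  have h1 : F.card = ∑ l ∈ E.image lab, (F.filter fun p => lab p = l).card :=
    card_eq_sum_card_fiberwise (fun p hp => mem_image_of_mem _ (hFE hp))
  have h2 : E.card = ∑ l ∈ E.image lab, (E.filter fun p => lab p = l).card :=
    card_eq_sum_card_fiberwise (fun p hp => mem_image_of_mem _ hp)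
  rw [h1, h2, mul_sum, mul_sum]
  refine sum_le_sum fun l _ => ?_
  obtain ⟨u, v⟩ := l
  obtain ⟨M, hM⟩ : ∃ M : α → β → Prop, M = fun x y => R x y ∧ pa x = u ∧ pb y = v := ⟨_, rfl⟩
  have hTM : Tri M w := by rw [hM]; exact hT u v
  have hfM : NoBic M s t := by
    rintro ⟨S, T, g1, g2, g3⟩
    refine hf ⟨S, T, g1, g2, fun r hr c hc => ?_⟩
    have := g3 r hr c hc
    rw [hM] at this
    exact this.1
  obtain ⟨R', hR'⟩ : ∃ R' : Finset α, R' = univ.filter (fun x =>
      K < (univ.filter (M x)).card) := ⟨_, rfl⟩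
  obtain ⟨C', hC'⟩ : ∃ C' : Finset β, C' = univ.filter (fun y =>
      K < (univ.filter fun x => M x y).card) := ⟨_, rfl⟩
  have hEl : (E.filter fun p => lab p = (u, v)) = univ.filter (fun p : α × β => M p.1 p.2) := by
    ext p
    rw [mem_filter, hE, mem_filter, mem_filter, hM, hlab]
    simp only [Prod.mk.injEq]
    tauto
  rw [hEl]
  have hFl : (F.filter fun p => lab p = (u, v)) ⊆ (R' ×ˢ C').filter (fun p => M p.1 p.2) := by
    intro p hp
    rw [mem_filter, hF, mem_filter, hlab] at hp
    obtain ⟨⟨-, g1, g2, g3⟩, g4⟩ := hp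
    simp only [Prod.mk.injEq] at g4
    rw [mem_filter, mem_product, hR', hC', mem_filter, mem_filter]
    refine ⟨⟨⟨mem_univ _, ?_⟩, ⟨mem_univ _, ?_⟩⟩, ?_⟩
    · refine lt_of_lt_of_le g3 (card_le_card ?_)
      intro y hy
      rw [mem_filter] at hy ⊢
      rw [hM]
      exact ⟨mem_univ _, hy.2.1, g4.1, hy.2.2.trans g4.2⟩
    · refine lt_of_lt_of_le g2 (card_le_card ?_)
      intro x hx
      rw [mem_filter] at hx ⊢
      rw [hM]
      exact ⟨mem_univ _, hx.2.1, hx.2.2.trans g4.1, g4.2⟩
    · rw [hM]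
      exact ⟨g1, g4.1, g4.2⟩
  have h3 : ((R' ×ˢ C').filter (fun p => M p.1 p.2)).card = ee M R' C' := by
    unfold ee
    rw [card_filter, sum_product]
    exact sum_congr rfl fun r _ => (card_filter _ _).symm
  have h4 := few_pairs hTM hw hfM C' R'.card R' rfl
  have h5 : (univ.filter (fun p : α × β => M p.1 p.2)).card = ∑ x, (univ.filter (M x)).card := by
    rw [card_filter, Fintype.sum_prod_type]
    exact sum_congr rfl fun r _ => (card_filter _ _).symm
  have h6 : (univ.filter (fun p : α × β => M p.1 p.2)).card =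
      ∑ y, (univ.filter fun x => M x y).card := by
    rw [card_filter, Fintype.sum_prod_type_right]
    exact sum_congr rfl fun r _ => (card_filter _ _).symm
  have h7 : K * R'.card ≤ (univ.filter (fun p : α × β => M p.1 p.2)).card := by
    rw [h5]
    calc K * R'.card = ∑ x ∈ R', K := by rw [sum_const, smul_eq_mul, mul_comm]
      _ ≤ ∑ x ∈ R', (univ.filter (M x)).card := sum_le_sum fun x hx => by
          rw [hR', mem_filter] at hx
          exact hx.2.le
      _ ≤ _ := sum_le_sum_of_subset (subset_univ _)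
  have h8 : K * C'.card ≤ (univ.filter (fun p : α × β => M p.1 p.2)).card := by
    rw [h6]
    calc K * C'.card = ∑ x ∈ C', K := by rw [sum_const, smul_eq_mul, mul_comm]
      _ ≤ ∑ y ∈ C', (univ.filter fun x => M x y).card := sum_le_sum fun x hx => by
          rw [hC', mem_filter] at hx
          exact hx.2.le
      _ ≤ _ := sum_le_sum_of_subset (subset_univ _)
  calc K * (F.filter fun p => lab p = (u, v)).card ≤ K * ee M R' C' := by
        rw [← h3]
        exact Nat.mul_le_mul_left _ (card_le_card hFl)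
    _ ≤ K * (2 * w * t * R'.card + s * w * (2 * w) ^ t * C'.card) := Nat.mul_le_mul_left _ h4
    _ = 2 * w * t * (K * R'.card) + s * w * (2 * w) ^ t * (K * C'.card) := by ring
    _ ≤ 2 * w * t * (univ.filter (fun p : α × β => M p.1 p.2)).card +
        s * w * (2 * w) ^ t * (univ.filter (fun p : α × β => M p.1 p.2)).card :=
        Nat.add_le_add (Nat.mul_le_mul_left _ h7) (Nat.mul_le_mul_left _ h8)
    _ = _ := by ring

section Words

variable {ι Al : Type} [Fintype ι]

omit [Fintype ι] in
theorem mix_left (C : Finset ι) (x y z : ι → Al) : mix C (mix C x y) z = mix C x z := by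
  funext i
  unfold mix
  split_ifs <;> rfl

omit [Fintype ι] in
theorem mix_right (C : Finset ι) (x y z : ι → Al) : mix C z (mix C x y) = mix C z y := by
  funext i
  unfold mix
  split_ifs <;> rfl

/-- The complement. -/
noncomputable def cpl (C : Finset ι) : Finset ι := univ.filter fun i => i ∉ C

theorem mem_cpl {C : Finset ι} {i : ι} : i ∈ cpl C ↔ i ∉ C := by
  unfold cpl
  simp

/-- The union. -/
noncomputable def uni (C D : Finset ι) : Finset ι := univ.filter fun i => i ∈ C ∨ i ∈ D

theorem mem_uni {C D : Finset ι} {i : ι} : i ∈ uni C D ↔ i ∈ C ∨ i ∈ D := by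
  unfold uni
  simp

theorem cpl_cpl (C : Finset ι) : cpl (cpl C) = C := by
  ext i
  rw [mem_cpl, mem_cpl, not_not]

theorem mix_compl (C : Finset ι) (x y : ι → Al) : mix (cpl C) x y = mix C y x := by
  funext i
  unfold mix
  by_cases h : i ∈ C
  · rw [if_neg (by rw [mem_cpl]; simpa using h), if_pos h]
  · rw [if_pos (mem_cpl.2 h), if_neg h]

/-- The triangular rank of a set of words, for the set `C` of places. -/
def TriN (N : Finset (ι → Al)) (C : Finset ι) (w : ℕ) : Prop :=
  ∀ (k : ℕ) (x : Fin k → ι → Al), (∀ i, x i ∈ N) →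
    (∀ i j, i < j → mix C (x j) (x i) ∉ N) → k ≤ w

theorem few_parts {N P : Finset (ι → Al)} {C : Finset ι} {w K : ℕ} (h : TriN N C w) (hPN : P ⊆ N)
    (x0 : ι → Al) (hP : ∀ x ∈ P, (N.filter fun x' => mix C x0 x' = mix C x0 x).card ≤ K) :
    (P.image (fun x => mix C x x0)).card ≤ K * w := by
  have hch : ∀ u ∈ P.image (fun x => mix C x x0), ∃ x ∈ P, mix C x x0 = u := by
    intro u hu
    rw [mem_image] at hu
    exact hu
  choose! g hg1 hg2 using hch
  obtain ⟨Z, hZ⟩ : ∃ Z : (ι → Al) → (ι → Al) → Prop, Z = fun u u' => mix C (g u') (g u) ∈ N :=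
    ⟨_, rfl⟩
  refine greedy Z K w _ ?_ ?_
  · intro u hu
    refine le_trans ?_ (hP (g u) (hg1 u hu))
    refine card_le_card_of_injOn (fun u' => mix C (g u') (g u)) ?_ ?_
    · intro u' hu'
      rw [mem_coe, mem_filter, hZ] at hu'
      rw [mem_coe, mem_filter]
      exact ⟨hu'.2, mix_right _ _ _ _⟩
    · intro u1 hu1 u2 hu2 he
      rw [mem_coe, mem_filter] at hu1 hu2
      simp only at he
      have := congrArg (fun x => mix C x x0) he
      simp only [mix_left] at this
      rw [hg2 u1 hu1.1, hg2 u2 hu2.1] at this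
      exact this
  · intro k f hf hz
    refine h k (fun i => g (f i)) (fun i => hPN (hg1 _ (hf i))) fun i j hij => ?_
    have := hz i j hij
    rw [hZ] at this
    exact this

theorem few_words {N : Finset (ι → Al)} {w K : ℕ} (C : Fin 3 → Finset ι)
    (h : ∀ a, TriN N (C a) w) (hc : ∀ i, ∃ a, i ∈ C a) (x0 : ι → Al) :
    (N.filter fun x => ∀ a, (N.filter fun x' => mix (C a) x0 x' = mix (C a) x0 x).card ≤ K).card ≤
      (K * w) ^ 3 := by
  obtain ⟨P, hP⟩ : ∃ P, P = N.filter fun x => ∀ a,
    (N.filter fun x' => mix (C a) x0 x' = mix (C a) x0 x).card ≤ K := ⟨_, rfl⟩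
  rw [← hP]
  have hPN : P ⊆ N := by rw [hP]; exact filter_subset _ _
  have hsub : P.card ≤ (Fintype.piFinset fun a : Fin 3 => P.image (fun x => mix (C a) x x0)).card := by
    refine card_le_card_of_injOn (fun x a => mix (C a) x x0) ?_ ?_
    · intro x hx
      rw [mem_coe, Fintype.mem_piFinset]
      intro a
      exact mem_image_of_mem _ hx
    · intro x _ y _ he
      funext i
      obtain ⟨a, ha⟩ := hc i
      have := congrFun (congrFun he a) i
      simp only at this
      unfold mix at this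
      rwa [if_pos ha, if_pos ha] at this
  refine hsub.trans ?_
  rw [Fintype.card_piFinset]
  calc ∏ a, (P.image (fun x => mix (C a) x x0)).card ≤ ∏ a : Fin 3, K * w :=
        prod_le_prod' fun a _ => few_parts (h a) hPN x0 (fun x hx => by
          rw [hP, mem_filter] at hx
          exact hx.2 a)
    _ = _ := by rw [prod_const, card_univ, Fintype.card_fin]

end Words

end Pool.Agent.V11163.ZK
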