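import Mathlib

/-!
# Relations of small triangular rank without large bicliques
-/

set_option autoImplicit false

open Finset Classical

namespace Pool.Agent.V11163.ZK

variable {α β : Type}

/-- Triangular sequences of the relation `M` have length at most `w`. -/
def Tri (M : α → β → Prop) (w : ℕ) : Prop :=
  ∀ (k : ℕ) (r : Fin k → α) (c : Fin k → β), (∀ i, M (r i) (c i)) →
    (∀ i j, i < j → ¬ M (r i) (c j)) → k ≤ w

theorem tri_sub {M : α → β → Prop} {w : ℕ} (h : Tri M w) {r0 : α} {c0 : β} (h0 : M r0 c0) :
    Tri (fun r c => M r c ∧ ¬ M r0 c) (w - 1) := by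
  intro k r c h1 h2
  have := h (k + 1) (Fin.cons r0 r) (Fin.cons c0 c) ?_ ?_
  · omega
  · intro i
    refine Fin.cases ?_ (fun i => ?_) i
    · simpa using h0
    · simpa using (h1 i).1
  · intro i j hij
    revert hij
    refine Fin.cases ?_ (fun j => ?_) j
    · intro hij
      exact absurd hij (Fin.not_lt_zero i)
    · refine Fin.cases ?_ (fun i => ?_) i
      · intro _
        simpa using (h1 j).2
      · intro hij
        have h3 := h2 i j (Fin.succ_lt_succ_iff.1 hij)
        intro h4
        rw [Fin.cons_succ, Fin.cons_succ] at h4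
        exact h3 ⟨h4, (h1 j).2⟩

/-- The covering lemma. -/
theorem cover (d : α → ℕ) (R : Finset α) (C : Finset β) : ∀ (w : ℕ) (M : α → β → Prop), Tri M w →
    ∃ B ⊆ R, B.card ≤ w ∧ ∀ r ∈ R, ∀ c ∈ C, M r c → ∃ b ∈ B, M b c ∧ d b ≤ d r := by
  intro w
  induction w with
  | zero =>
    intro M hM
    refine ⟨∅, empty_subset _, by simp, ?_⟩
    intro r _ c _ h
    have := hM 1 (fun _ => r) (fun _ => c) (fun _ => h) (fun i j hij => by
      have := Subsingleton.elim i j
      subst this
      exact absurd hij (lt_irrefl _))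
    omega
  | succ w ih =>
    intro M hM
    by_cases hne : (R.filter fun r => ∃ c ∈ C, M r c).Nonempty
    · obtain ⟨r0, hr0, hmin⟩ := exists_min_image _ d hne
      rw [mem_filter] at hr0
      obtain ⟨hr0R, c0, hc0, h0⟩ := hr0
      obtain ⟨B, hB1, hB2, hB3⟩ := ih _ (tri_sub hM h0)
      refine ⟨insert r0 B, ?_, ?_, ?_⟩
      · intro b hb
        rcases mem_insert.1 hb with rfl | hb
        · exact hr0R
        · exact hB1 hb
      · exact (card_insert_le _ _).trans (by omega)
      · intro r hr c hc h
        by_cases h1 : M r0 c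
        · exact ⟨r0, mem_insert_self _ _, h1, hmin r (mem_filter.2 ⟨hr, c, hc, h⟩)⟩
        · obtain ⟨b, hb, hb1, hb2⟩ := hB3 r hr c hc ⟨h, h1⟩
          exact ⟨b, mem_insert_of_mem hb, hb1.1, hb2⟩
    · refine ⟨∅, empty_subset _, by simp, ?_⟩
      intro r hr c hc h
      exact absurd ⟨r, mem_filter.2 ⟨hr, c, hc, h⟩⟩ hne

/-- Dense rows contain a biclique. -/
theorem dense (M : α → β → Prop) (w L : ℕ) : ∀ (t : ℕ) (P : Finset α) (C : Finset β),
    P.Nonempty → C.card ≤ L → 1 ≤ w → 
    (∀ r ∈ P, L + 2 * w * t ≤ 2 * w * (C.filter (M r)).card) →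
    ∃ T ⊆ C, ∃ S ⊆ P, T.card = t ∧ (∀ r ∈ S, ∀ c ∈ T, M r c) ∧ P.card ≤ S.card * (2 * w) ^ t := by
  intro t
  induction t with
  | zero =>
    intro P C _ _ _ _
    exact ⟨∅, empty_subset _, P, Subset.refl _, by simp, by simp, by simp⟩
  | succ t ih =>
    intro P C hP hC hw h
    obtain ⟨c, hc, hcP⟩ : ∃ c ∈ C, P.card ≤ 2 * w * (P.filter fun r => M r c).card := by
      by_contra hcon
      push Not at hcon
      have h1 : ∑ c ∈ C, 2 * w * (P.filter fun r => M r c).card ≤ L * P.card := by
        calc ∑ c ∈ C, 2 * w * (P.filter fun r => M r c).card ≤ ∑ c ∈ C, P.card :=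
              sum_le_sum fun c hc => (hcon c hc).le
          _ = C.card * P.card := by rw [sum_const, smul_eq_mul]
          _ ≤ _ := Nat.mul_le_mul_right _ hC
      have h2 : ∑ c ∈ C, (P.filter fun r => M r c).card = ∑ r ∈ P, (C.filter (M r)).card := by
        simp only [card_filter]
        exact sum_comm
      rw [← mul_sum, h2, mul_sum] at h1
      have h3 : P.card * (L + 2 * w * (t + 1)) ≤ ∑ r ∈ P, 2 * w * (C.filter (M r)).card := by
        calc P.card * (L + 2 * w * (t + 1)) = ∑ r ∈ P, (L + 2 * w * (t + 1)) := by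
              rw [sum_const, smul_eq_mul]
          _ ≤ _ := sum_le_sum fun r hr => h r hr
      have h4 : 0 < P.card := card_pos.2 hP
      have h5 : 0 < P.card * (2 * w * (t + 1)) := by positivity
      nlinarith
    have hPc : (P.filter fun r => M r c).Nonempty := by
      rw [← card_pos]
      by_contra h0
      have h4 : 0 < P.card := card_pos.2 hP
      have : (P.filter fun r => M r c).card = 0 := by omega
      rw [this] at hcP
      omega
    obtain ⟨T, hT, S, hS, hTc, hST, hPS⟩ := ih (P.filter fun r => M r c) (C.erase c) hPc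
      ((card_le_card (erase_subset _ _)).trans hC) hw (by
        intro r hr
        rw [mem_filter] at hr
        have h1 := h r hr.1
        have h2 : (C.filter (M r)).card ≤ ((C.erase c).filter (M r)).card + 1 := by
          have : C.filter (M r) ⊆ insert c ((C.erase c).filter (M r)) := by
            intro c' hc'
            rw [mem_filter] at hc'
            by_cases h3 : c' = c
            · exact mem_insert.2 (Or.inl h3)
            · exact mem_insert_of_mem (mem_filter.2 ⟨mem_erase.2 ⟨h3, hc'.1⟩, hc'.2⟩)
          exact (card_le_card this).trans (card_insert_le _ _)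
        have h3 : 2 * w * (C.filter (M r)).card ≤
            2 * w * (((C.erase c).filter (M r)).card + 1) := Nat.mul_le_mul_left _ h2
        nlinarith)
    have hcT : c ∉ T := fun h3 => (mem_erase.1 (hT h3)).1 rfl
    refine ⟨insert c T, ?_, S, hS.trans (filter_subset _ _), ?_, ?_, ?_⟩
    · intro c' hc'
      rcases mem_insert.1 hc' with rfl | h3
      · exact hc
      · exact (erase_subset _ _) (hT h3)
    · rw [card_insert_of_notMem hcT, hTc]
    · intro r hr c' hc'
      rcases mem_insert.1 hc' with rfl | h3
      · exact (mem_filter.1 (hS hr)).2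
      · exact hST r hr c' h3
    · calc P.card ≤ 2 * w * (P.filter fun r => M r c).card := hcP
        _ ≤ 2 * w * (S.card * (2 * w) ^ t) := Nat.mul_le_mul_left _ hPS
        _ = S.card * (2 * w) ^ (t + 1) := by ring

/-- The relation contains no complete bipartite relation with `s` rows and `t` columns. -/
def NoBic (M : α → β → Prop) (s t : ℕ) : Prop :=
  ¬ ∃ (S : Finset α) (T : Finset β), S.card = s ∧ T.card = t ∧ ∀ r ∈ S, ∀ c ∈ T, M r c

/-- Few rows of large degree. -/
theorem few_rows {M : α → β → Prop} {w s t : ℕ} (hM : Tri M w) (hw : 1 ≤ w) (hf : NoBic M s t)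
    (R : Finset α) (C : Finset β) (hd : ∀ r ∈ R, 2 * w * t ≤ (C.filter (M r)).card) :
    R.card ≤ s * w * (2 * w) ^ t := by
  by_contra hcon
  push Not at hcon
  obtain ⟨B, hB1, hB2, hB3⟩ := cover (fun r => (C.filter (M r)).card) R C w M hM
  have hRne : R.Nonempty := card_pos.1 (by omega)
  -- the choice of the member of the cover
  have hch : ∀ r ∈ R, ∃ b, ((b ∈ B ∧ (C.filter (M b)).card ≤ (C.filter (M r)).card ∧
      (C.filter (M r)).card ≤ w * ((C.filter (M b)).filter (M r)).card) ∨ 
      (C.filter (M r)).card = 0) := by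
    intro r hr
    by_cases h0 : (C.filter (M r)).card = 0
    · exact ⟨r, Or.inr h0⟩
    by_contra hno
    push Not at hno
    have hB' : ∀ b ∈ B.filter (fun b => (C.filter (M b)).card ≤ (C.filter (M r)).card),
        w * ((C.filter (M b)).filter (M r)).card + 1 ≤ (C.filter (M r)).card := by
      intro b hb
      rw [mem_filter] at hb
      exact (hno b).1 hb.1 hb.2
    have hsub : C.filter (M r) ⊆ (B.filter (fun b => (C.filter (M b)).card ≤
        (C.filter (M r)).card)).biUnion (fun b => (C.filter (M b)).filter (M r)) := by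
      intro c hc
      rw [mem_filter] at hc
      obtain ⟨b, hb, hb1, hb2⟩ := hB3 r hr c hc.1 hc.2
      rw [mem_biUnion]
      exact ⟨b, mem_filter.2 ⟨hb, hb2⟩, mem_filter.2 ⟨mem_filter.2 ⟨hc.1, hb1⟩, hc.2⟩⟩
    obtain ⟨B', hB'e⟩ : ∃ B', B' = B.filter (fun b => (C.filter (M b)).card ≤
        (C.filter (M r)).card) := ⟨_, rfl⟩
    rw [← hB'e] at hB' hsub
    have h1 : (C.filter (M r)).card ≤ ∑ b ∈ B', ((C.filter (M b)).filter (M r)).card :=
      (card_le_card hsub).trans card_biUnion_le
    have h2 : w * (C.filter (M r)).card + B'.card ≤ B'.card * (C.filter (M r)).card := by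
      calc w * (C.filter (M r)).card + B'.card
          ≤ w * ∑ b ∈ B', ((C.filter (M b)).filter (M r)).card + B'.card :=
            Nat.add_le_add_right (Nat.mul_le_mul_left _ h1) _
        _ = ∑ b ∈ B', (w * ((C.filter (M b)).filter (M r)).card + 1) := by
            rw [sum_add_distrib, mul_sum, sum_const, smul_eq_mul, mul_one]
        _ ≤ ∑ b ∈ B', (C.filter (M r)).card := sum_le_sum fun b hb => hB' b hb
        _ = _ := by rw [sum_const, smul_eq_mul]
    have h3 : B'.card ≤ w := by
      rw [hB'e]
      exact (card_le_card (filter_subset _ _)).trans hB2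
    have h4 : B'.card * (C.filter (M r)).card ≤ w * (C.filter (M r)).card :=
      Nat.mul_le_mul_right _ h3
    have h5 : B'.card = 0 := by omega
    have h6 : B' = ∅ := card_eq_zero.1 h5
    rw [h6] at hsub
    simp at hsub
    rw [filter_eq_empty_iff.2 (fun c hc => hsub hc)] at h0
    simp at h0
  -- the case `t = 0`
  rcases Nat.eq_zero_or_pos t with ht | ht
  · subst ht
    obtain ⟨S, hS, hSc⟩ := exists_subset_card_eq (s := R) (n := s) (by
      have : s * 1 ≤ s * w := Nat.mul_le_mul_left _ hw
      simp at hcon
      omega)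
    exact hf ⟨S, ∅, hSc, by simp, by simp⟩
  have hch' : ∀ r ∈ R, ∃ b ∈ B, (C.filter (M b)).card ≤ (C.filter (M r)).card ∧
      (C.filter (M r)).card ≤ w * ((C.filter (M b)).filter (M r)).card := by
    intro r hr
    obtain ⟨b, hb⟩ := hch r hr
    rcases hb with hb | hb
    · exact ⟨b, hb.1, hb.2⟩
    · exfalso
      have := hd r hr
      rw [hb] at this
      have h1 : 0 < 2 * w * t := by positivity
      omega
  choose! g hg1 hg2 hg3 using hch'
  have hfib : ∃ b ∈ B, s * (2 * w) ^ t < (R.filter fun r => g r = b).card := by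
    by_contra hno
    push Not at hno
    have h1 : R.card = ∑ b ∈ B, (R.filter fun r => g r = b).card :=
      card_eq_sum_card_fiberwise (fun r hr => hg1 r hr)
    have h2 : R.card ≤ B.card * (s * (2 * w) ^ t) := by
      rw [h1]
      calc _ ≤ ∑ b ∈ B, s * (2 * w) ^ t := sum_le_sum fun b hb => hno b hb
        _ = _ := by rw [sum_const, smul_eq_mul]
    have h3 : B.card * (s * (2 * w) ^ t) ≤ w * (s * (2 * w) ^ t) := Nat.mul_le_mul_right _ hB2
    have h4 : w * (s * (2 * w) ^ t) = s * w * (2 * w) ^ t := by ring
    omega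
  obtain ⟨b, hb, hbc⟩ := hfib
  obtain ⟨T, hT, S, hS, hTc, hST, hPS⟩ := dense M w (C.filter (M b)).card t
    (R.filter fun r => g r = b) (C.filter (M b)) (card_pos.1 (by omega)) le_rfl hw (by
      intro r hr
      rw [mem_filter] at hr
      obtain ⟨hr, rfl⟩ := hr
      have h1 := hg2 r hr
      have h2 := hg3 r hr
      have h3 := hd r hr
      calc (C.filter (M (g r))).card + 2 * w * t ≤ 2 * (C.filter (M r)).card := by omega
        _ ≤ 2 * (w * ((C.filter (M (g r))).filter (M r)).card) := Nat.mul_le_mul_left _ h2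
        _ = _ := by ring)
  have hSs : s ≤ S.card := by
    by_contra h1
    push Not at h1
    have : S.card * (2 * w) ^ t ≤ s * (2 * w) ^ t := Nat.mul_le_mul_right _ h1.le
    omega
  obtain ⟨S', hS', hSc⟩ := exists_subset_card_eq hSs
  exact hf ⟨S', T, hSc, hTc, fun r hr c hc => hST r (hS' hr) c hc⟩

/-- The number of related pairs. -/
noncomputable def ee (M : α → β → Prop) (R : Finset α) (C : Finset β) : ℕ :=
  ∑ r ∈ R, (C.filter (M r)).card

/-- Few pairs. -/
theorem few_pairs {M : α → β → Prop} {w s t : ℕ} (hM : Tri M w) (hw : 1 ≤ w) (hf : NoBic M s t)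
    (C : Finset β) : ∀ (k : ℕ) (R : Finset α), R.card = k →
    ee M R C ≤ 2 * w * t * R.card + s * w * (2 * w) ^ t * C.card := by
  intro k
  induction k with
  | zero =>
    intro R hR
    rw [card_eq_zero] at hR
    subst hR
    simp [ee]
  | succ k ih =>
    intro R hR
    by_cases h : ∃ r ∈ R, (C.filter (M r)).card < 2 * w * t
    · obtain ⟨r, hr, h1⟩ := h
      have h2 := ih (R.erase r) (by rw [card_erase_of_mem hr, hR]; rfl)
      have h3 : ee M R C = (C.filter (M r)).card + ee M (R.erase r) C := by
        unfold ee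
        exact (add_sum_erase _ _ hr).symm
      have h4 : R.card = (R.erase r).card + 1 := by
        rw [card_erase_of_mem hr]
        omega
      rw [h3, h4, mul_add, mul_one]
      omega
    · push Not at h
      have h1 := few_rows hM hw hf R C h
      calc ee M R C ≤ ∑ r ∈ R, C.card := sum_le_sum fun r _ => card_le_card (filter_subset _ _)
        _ = R.card * C.card := by rw [sum_const, smul_eq_mul]
        _ ≤ s * w * (2 * w) ^ t * C.card := Nat.mul_le_mul_right _ h1
        _ ≤ _ := Nat.le_add_left _ _

/-- The greedy choice. -/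
theorem greedy (Z : α → α → Prop) (D : ℕ) : ∀ (w : ℕ) (N : Finset α),
    (∀ x ∈ N, (N.filter (Z x)).card ≤ D) →
    (∀ (k : ℕ) (f : Fin k → α), (∀ i, f i ∈ N) → (∀ i j, i < j → ¬ Z (f i) (f j)) → k ≤ w) →
    N.card ≤ D * w := by
  intro w
  induction w with
  | zero =>
    intro N _ h2
    by_contra h3
    have h4 : N.Nonempty := card_pos.1 (by omega)
    obtain ⟨x, hx⟩ := h4
    have := h2 1 (fun _ => x) (fun _ => hx) (fun i j hij => by
      have := Subsingleton.elim i j
      subst this
      exact absurd hij (lt_irrefl _))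
    omega
  | succ w ih =>
    intro N h1 h2
    rcases N.eq_empty_or_nonempty with h3 | ⟨x, hx⟩
    · rw [h3]
      simp
    have h4 := ih (N.filter fun y => ¬ Z x y) (fun y hy => by
        refine (card_le_card ?_).trans (h1 y (mem_filter.1 hy).1)
        exact filter_subset_filter _ (filter_subset _ _)) (by
        intro k f hf hz
        have := h2 (k + 1) (Fin.cons x f) ?_ ?_
        · omega
        · intro i
          refine Fin.cases ?_ (fun i => ?_) i
          · simpa using hx
          · simpa using (mem_filter.1 (hf i)).1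
        · intro i j hij
          revert hij
          refine Fin.cases ?_ (fun j => ?_) j
          · intro hij
            exact absurd hij (Fin.not_lt_zero i)
          · refine Fin.cases ?_ (fun i => ?_) i
            · intro _
              simpa using (mem_filter.1 (hf j)).2
            · intro hij
              simpa using hz i j (Fin.succ_lt_succ_iff.1 hij))
    have h5 : (N.filter (Z x)).card + (N.filter fun y => ¬ Z x y).card = N.card :=
      card_filter_add_card_filter_not _
    have h6 := h1 x hx
    rw [mul_add, mul_one]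
    omega

end Pool.Agent.V11163.ZK
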