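import Pool.Agent.V11163.ZK.Final
import Pool.Agent.H607R2.BW.GIR
import Mathlib.Combinatorics.SimpleGraph.CycleGraph

/-!
# Forbidden cycles and complete bipartite graphs
-/

set_option autoImplicit false

open Finset Classical

namespace Pool.Agent.V11163.ZK

open Pool.Agent.TH700.PA

/-- Even cycles are contained in complete bipartite graphs. -/
theorem cyc_in (k : ℕ) (hk : 2 ≤ k) :
    (SimpleGraph.cycleGraph (2 * k)).IsContained (completeBipartiteGraph (Fin k) (Fin k)) := by
  refine ⟨⟨⟨fun v => if v.1 % 2 = 0 then Sum.inl ⟨v.1 / 2, by omega⟩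
    else Sum.inr ⟨v.1 / 2, by omega⟩, ?_⟩, ?_⟩⟩
  · intro a b hab
    have h1 : a.1 % 2 ≠ b.1 % 2 := by
      rw [SimpleGraph.cycleGraph_adj'] at hab
      have ha := a.2
      have hb := b.2
      rcases hab with h | h
      · rw [Fin.sub_def] at h
        simp only at h
        rcases Nat.lt_or_ge (2 * k - b.1 + a.1) (2 * k) with h2 | h2
        · rw [Nat.mod_eq_of_lt h2] at h
          omega
        · rw [Nat.mod_eq_sub_mod h2, Nat.mod_eq_of_lt (by omega)] at h
          omega
      · rw [Fin.sub_def] at h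
        simp only at h
        rcases Nat.lt_or_ge (2 * k - a.1 + b.1) (2 * k) with h2 | h2
        · rw [Nat.mod_eq_of_lt h2] at h
          omega
        · rw [Nat.mod_eq_sub_mod h2, Nat.mod_eq_of_lt (by omega)] at h
          omega
    by_cases ha : a.1 % 2 = 0
    · have hb : ¬ b.1 % 2 = 0 := fun h => h1 (ha.trans h.symm)
      simp [ha, hb]
    · by_cases hb : b.1 % 2 = 0
      · simp [ha, hb]
      · omega
  · intro a b hab
    simp only [RelHom.coeFn_mk] at hab
    apply Fin.ext
    split_ifs at hab with ha hb hb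
    · have := congrArg Fin.val (Sum.inl_injective hab)
      simp only at this
      omega
    · have := congrArg Fin.val (Sum.inr_injective hab)
      simp only at this
      omega

/-- The asymptotic form. -/
theorem kst_asy (s t q : ℕ) (hq : 2 ≤ q) (ε γ c : ℝ) (hc : 0 < c)
    (hγ : 3 * ((s : ℝ) + t + 2) * γ < ε) :
    ∃ m₀ : ℕ, ∀ (m : ℕ) (K W : Type) [Field K] [Fintype W] (G : SimpleGraph (Fin m → Fin q)),
      m₀ ≤ m → Rec K W G → (completeBipartiteGraph (Fin s) (Fin t)).Free G →
      c * ((q : ℝ) ^ m) ^ (1 + ε) ≤ Nat.card G.edgeSet →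
      ((q : ℝ) ^ m) ^ γ < Fintype.card W := by
  obtain ⟨m₀, h⟩ := asy_of_le (CC s t q) (3 * (s + t + 2)) hq hc (ε := ε) (γ := γ) (by
    push_cast
    linarith)
  refine ⟨m₀, fun m K W _ _ G hm hG hf hE => ?_⟩
  exact h m (Fintype.card W) (Nat.card G.edgeSet) hm (kst_le s t m q K W G hG hf) hE

end Pool.Agent.V11163.ZK
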